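import Pool.Agent.H601H.HochDefs
import Pool.Agent.H601H.Bridge

set_option autoImplicit false

namespace Pool.Agent.Results.MP_067393_an.NonAmenableBanach

open H601H.Hoch

universe u

/-- There is a non-amenable Banach algebra `A` such that `H_k(A, X) = 0` for every Banach
`A`-bimodule `X` and every `k ≥ 1` (`k = j + 1`). -/
theorem result :
    ∃ A : BAlg, ¬ Amenable.{0} A ∧
      ∀ (X : BSpace.{u}) (M : Bimod A X), Nonempty (HochschildComplex M) ∧
        ∀ (H : HochschildComplex M) (j : ℕ), HomologyVanishes H j :=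
  ⟨H601H.AB, H601H.not_amenable, fun _ M => ⟨⟨H601H.conc M⟩, H601H.main_vanish M⟩⟩

end Pool.Agent.Results.MP_067393_an.NonAmenableBanach
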